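import Pool.Agent.Helper88.TA.Goals
import Pool.Agent.Helper16.TU.TG
import Pool.Agent.Helper85.RR.S1

/-!
# MP_69be96_nt, project TA, packet W4: the fourth moment of the weight
-/

set_option autoImplicit false

open Finset Filter Topology

open scoped Classical

namespace Pool.Agent.Helper5.TA

open Pool.Agent.Helper88.TA
open Pool.Agent.Helper88.PP (pr Rg om Sf SS uu vv ee LA VV QQ cost dd)
open Pool.Agent.Helper88.RR (gg ab TB WB nz wb DB VM GB)
open Pool.Agent.Helper88.GM (NI XI In Sr)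
open Pool.Agent.Helper88.TU (Su)
open Pool.Agent.Helper85.RR (ab_nonneg card_TB mem_TB prod_TB WB_eq)
open Pool.Agent.Helper3.PP (om_nonneg mem_SS mem_LA LA_sub)
open Pool.Agent.Helper49.GM (XI_nonneg)
open Pool.Agent.Helper24.PP (upper prod_al)

/-- `∑ k^ω(s)/s ≤ (C m)^k` -/
theorem mass_pow : ∃ C : ℝ, 1 ≤ C ∧ ∀ z m k : ℕ, 2 ≤ z → 1 ≤ m →
    ∑ s ∈ SS z (z ^ m), (k : ℝ) ^ s.primeFactors.card / s ≤ (C * m) ^ k := by
  obtain ⟨C, hC0, hC⟩ := Pool.Agent.Helper31.Tot.ax_bound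
  refine ⟨Real.exp (2 * C), Real.one_le_exp (by linarith), ?_⟩
  intro z m k hz hm
  have hz2 : (2 : ℝ) ≤ z := by exact_mod_cast hz
  have hm1 : (1 : ℝ) ≤ m := by exact_mod_cast hm
  have hlz : 0 < Real.log z := Real.log_pos (by linarith)
  have hX : Real.log ((z ^ m : ℕ) : ℝ) = m * Real.log z := by
    push_cast
    rw [Real.log_pow]
  have hzX : z ≤ z ^ m := Nat.le_self_pow (by omega) z
  have hprod : ∏ p ∈ (Ioc z (z ^ m)).filter Nat.Prime, (1 - 1 / (p : ℝ))⁻¹
      ≤ Real.exp (2 * C) * m := by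
    rw [prod_al, ← Pool.Agent.Helper31.Tot.ax_sub hzX]
    have h1 := abs_le.1 (hC (z ^ m))
    have h2 := abs_le.1 (hC z)
    have h3 : Real.log (Real.log ((z ^ m : ℕ) : ℝ)) = Real.log m + Real.log (Real.log z) := by
      rw [hX, Real.log_mul (by linarith) hlz.ne']
    rw [h3] at h1
    refine le_trans (Real.exp_le_exp.2 (?_ : _ ≤ 2 * C + Real.log m)) (le_of_eq ?_)
    · linarith [h1.2, h2.1]
    · rw [Real.exp_add, Real.exp_log (by linarith)]
  have hfac : ∀ p ∈ (Ioc z (z ^ m)).filter Nat.Prime, 0 < 1 - 1 / (p : ℝ) ∧ (2 : ℝ) ≤ p := by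
    intro p hp
    have hp2 : (2 : ℝ) ≤ p := by exact_mod_cast (mem_filter.1 hp).2.two_le
    refine ⟨?_, hp2⟩
    rw [sub_pos, div_lt_one (by linarith)]
    linarith
  have hpow : ∀ s : ℕ, Squarefree s →
      (k : ℝ) ^ s.primeFactors.card / s = ∏ p ∈ s.primeFactors, ((k : ℝ) / (p : ℝ)) := by
    intro s hs
    have h2 : (s : ℝ) = ∏ p ∈ s.primeFactors, (p : ℝ) := by
      conv_lhs => rw [← Nat.prod_primeFactors_of_squarefree hs]
      push_cast
      rfl
    rw [Finset.prod_div_distrib, Finset.prod_const, ← h2]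
  calc ∑ s ∈ SS z (z ^ m), (k : ℝ) ^ s.primeFactors.card / s
      = ∑ s ∈ SS z (z ^ m), ∏ p ∈ s.primeFactors, ((k : ℝ) / (p : ℝ)) := by
        refine Finset.sum_congr rfl fun s hs => ?_
        exact hpow s (mem_filter.1 hs).2.1
    _ ≤ ∏ p ∈ (Ioc z (z ^ m)).filter Nat.Prime, (1 + (k : ℝ) / (p : ℝ)) :=
        upper _ (fun p => by positivity) z _
    _ ≤ ∏ p ∈ (Ioc z (z ^ m)).filter Nat.Prime, ((1 - 1 / (p : ℝ))⁻¹) ^ k := by
        refine Finset.prod_le_prod (fun p _ => by positivity) fun p hp => ?_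
        obtain ⟨h1, h2⟩ := hfac p hp
        have hx0 : 0 ≤ 1 / (p : ℝ) := by positivity
        have h3 : 1 + 1 / (p : ℝ) ≤ (1 - 1 / (p : ℝ))⁻¹ := by
          rw [le_inv_comm₀ (by positivity) h1, inv_eq_one_div, le_div_iff₀ (by positivity)]
          nlinarith
        calc 1 + (k : ℝ) / (p : ℝ) ≤ (1 + 1 / (p : ℝ)) ^ k := by
              have h4 := one_add_mul_le_pow (a := 1 / (p : ℝ)) (by linarith) k
              have : (k : ℝ) / p = k * (1 / p) := by ring
              rw [this]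
              exact h4
          _ ≤ _ := pow_le_pow_left₀ (by positivity) h3 k
    _ = (∏ p ∈ (Ioc z (z ^ m)).filter Nat.Prime, (1 - 1 / (p : ℝ))⁻¹) ^ k := by
        rw [Finset.prod_pow]
    _ ≤ _ := by
        refine pow_le_pow_left₀ (Finset.prod_nonneg fun p hp => ?_) hprod k
        exact inv_nonneg.2 (hfac p hp).1.le

/-- the exponential bound -/
theorem ev_exp (A : ℝ) : ∃ E1 : ℕ, ∀ E : ℕ, E1 ≤ E →
    1 + A * (E : ℝ) ^ 18 ≤ Real.exp (E / 16) := by
  have h1 : Tendsto (fun w : ℝ => w ^ 18 * Real.exp (-w)) atTop (𝓝 0) :=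
    Real.tendsto_pow_mul_exp_neg_atTop_nhds_zero 18
  have h2 : ∀ᶠ w : ℝ in atTop, w ^ 18 * Real.exp (-w) < 1 / ((1 + |A|) * 16 ^ 18) :=
    h1.eventually (gt_mem_nhds (by positivity))
  obtain ⟨w0, hw0⟩ := eventually_atTop.1 h2
  refine ⟨max ⌈16 * w0⌉₊ 16, fun E hE => ?_⟩
  have hE1 : (16 : ℝ) * w0 ≤ E := (Nat.le_ceil _).trans
    (by exact_mod_cast (le_max_left _ _).trans hE)
  have hE16 : (16 : ℝ) ≤ E := by exact_mod_cast (le_max_right _ _).trans hE
  have h3 := hw0 ((E : ℝ) / 16) (by linarith)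
  rw [Real.exp_neg, ← div_eq_mul_inv, div_lt_div_iff₀ (Real.exp_pos _) (by positivity), one_mul,
    div_pow] at h3
  have h4 : 1 ≤ (E : ℝ) ^ 18 := one_le_pow₀ (by linarith)
  calc 1 + A * (E : ℝ) ^ 18 ≤ (E : ℝ) ^ 18 + |A| * (E : ℝ) ^ 18 := by
        have := mul_le_mul_of_nonneg_right (le_abs_self A) (by positivity : 0 ≤ (E : ℝ) ^ 18)
        linarith
    _ = (E : ℝ) ^ 18 / 16 ^ 18 * ((1 + |A|) * 16 ^ 18) := by field_simp
    _ ≤ Real.exp (E / 16) := h3.le

theorem w4 : StmtFM → Pool.Agent.Helper88.TU.StmtTL → StmtW4 := by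
  intro hFM hTL
  obtain ⟨Es, hsize⟩ := Pool.Agent.Helper88.TU.size
  obtain ⟨Eg, hsgg⟩ := Pool.Agent.Helper88.TU.size_gg 1 one_pos
  obtain ⟨c, hc, ETL, hTL⟩ := hTL
  obtain ⟨C, hC, hCB⟩ := Pool.Agent.Helper31.RR.cb
  obtain ⟨C', hC', hmass⟩ := mass_pow
  obtain ⟨Ee, hEe⟩ := ev_exp (16 * C ^ 4 * C' ^ 16)
  refine ⟨max (max ETL Es) (max (max Eg Ee) 4096), ?_⟩
  intro E z x y hE hS u v Q b hIn m q hm hqm hV hK3 P hP hPo
  have hE1 : ETL ≤ E := (le_max_left _ _).trans ((le_max_left _ _).trans hE)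
  have hE2 : Es ≤ E := (le_max_right _ _).trans ((le_max_left _ _).trans hE)
  have hE3 : Eg ≤ E := (le_max_left _ _).trans ((le_max_left _ _).trans ((le_max_right _ _).trans hE))
  have hE4 : Ee ≤ E := (le_max_right _ _).trans ((le_max_left _ _).trans ((le_max_right _ _).trans hE))
  have hE5 : 4096 ≤ E := (le_max_right _ _).trans ((le_max_right _ _).trans hE)
  have hTL := hTL E z x y hE1 hS u v Q b hIn
  obtain ⟨-, hggk⟩ := hsgg E z x y hE3 hS
  have hzE : Real.exp E ≤ z := hS.1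
  have hzE' : (E : ℝ) + 1 ≤ z := (Real.add_one_le_exp _).trans hzE
  have hzE2 : E + 1 ≤ z := by exact_mod_cast hzE'
  have hz2 : 2 ≤ z := by omega
  have hz1 : 1 ≤ z := by omega
  have ho := om_nonneg y z
  have hX0 := XI_nonneg u v Q
  set K := E / 16 / m with hK
  have hKle : K ^ 3 ≤ E := (Nat.pow_le_pow_left (Nat.le_succ K) 3).trans hK3
  have hKE : K ≤ E := (Nat.le_self_pow (by norm_num) K).trans hKle
  have h4K : (4 * K) ^ 2 ≤ E := by
    rcases le_total 16 K with h | h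
    · calc (4 * K) ^ 2 = 16 * K ^ 2 := by ring
        _ ≤ K * K ^ 2 := Nat.mul_le_mul_right _ h
        _ = K ^ 3 := by ring
        _ ≤ E := hKle
    · calc (4 * K) ^ 2 ≤ (4 * 16) ^ 2 := Nat.pow_le_pow_left (Nat.mul_le_mul_left 4 h) 2
        _ = 4096 := by norm_num
        _ ≤ E := hE5
  have hgg : ∀ k : ℕ, k ≤ 4 * K → gg y z k ≤ om y z ^ k := fun k hk =>
    (hggk k ((Nat.pow_le_pow_left hk 2).trans h4K)).2.1
  have hMz : q * m ≤ z := by omega
  have hCB' := hCB m q (q * m) z hm hz2 hMz hV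
  have hD4 : z ^ (4 * (E / 16)) ≤ z ^ (E / 4) := Nat.pow_le_pow_right hz1 (by omega)
  set al : ℕ → ℝ := fun r => if r ∈ LA z m (q * m) then ab m q z r else 0 with hal
  have hal0 : ∀ r, 0 ≤ al r := by
    intro r
    simp only [hal]
    split_ifs
    · exact ab_nonneg _ _ _ _
    · exact le_rfl
  have hexp1 : Real.exp (-(c * E)) ≤ 1 := by
    apply Real.exp_le_one_iff.2
    have : 0 ≤ c * (E : ℝ) := by positivity
    linarith
  -- the counting hypothesis
  have hcount : ∀ e : P → ℕ, (∀ i, e i = 0 ∨ Sf z (e i)) →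
      ∏ i, max 1 (e i) ≤ z ^ (4 * (E / 16)) → nz e ≤ 4 * K →
      (((NI u v Q b).filter (fun n => ∀ i, e i ≠ 0 → e i ∣ n + ((i : ℕ)) ∧
        Rg y z (n + (i : ℕ)))).card : ℝ) ≤ 2 * XI u v Q * ∏ i, dd (om y z) (e i) := by
    intro e he heD hne
    have hdd0 : 0 ≤ ∏ i, dd (om y z) (e i) := by
      refine Finset.prod_nonneg fun i _ => ?_
      unfold dd
      split_ifs
      · exact zero_le_one
      · positivity
    have key := Pool.Agent.Helper16.TU.tlg (K := 4 * K) (D := z ^ (E / 4)) (P := P)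
      (N := NI u v Q b) (δ := Real.exp (-(c * E))) (Y := XI u v Q) (y := y) (z := z)
      (Real.exp_pos _).le hX0 hP
      (fun B hB hBK d hd hdD => by
        have h := hTL B hB ((Nat.pow_le_pow_left hBK 2).trans h4K) d hd hdD
        exact ⟨fun hcop => (h.1 hcop).1, h.2⟩)
      e he (heD.trans hD4) hne hgg
    by_cases hcop : ∀ i j, i ≠ j → e i ≠ 0 → e j ≠ 0 → Nat.Coprime (e i) (e j)
    · have h1 := (abs_le.1 (key.1 hcop)).2
      have h2 : gg y z (univ.filter (fun i => e i ≠ 0)).card *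
          ∏ i, (if e i = 0 then 1 else 1 / (e i : ℝ)) ≤ ∏ i, dd (om y z) (e i) := by
        have h3 : ∏ i, dd (om y z) (e i) = om y z ^ (univ.filter (fun i => e i ≠ 0)).card *
            ∏ i, (if e i = 0 then 1 else 1 / (e i : ℝ)) := by
          rw [← Finset.prod_const, Finset.prod_filter, ← Finset.prod_mul_distrib]
          refine Finset.prod_congr rfl fun i _ => ?_
          unfold dd
          by_cases hi : e i = 0
          · simp [hi]
          · rw [if_neg hi, if_pos hi, if_neg hi]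
            ring
        rw [h3]
        refine mul_le_mul_of_nonneg_right (hgg _ hne) (Finset.prod_nonneg fun i _ => ?_)
        split_ifs
        · exact zero_le_one
        · positivity
      have h4 := mul_le_mul_of_nonneg_left h2 hX0
      have h5 : Real.exp (-(c * E)) * (XI u v Q * ∏ i, dd (om y z) (e i))
          ≤ 1 * (XI u v Q * ∏ i, dd (om y z) (e i)) :=
        mul_le_mul_of_nonneg_right hexp1 (mul_nonneg hX0 hdd0)
      linarith
    · rw [key.2 hcop, Nat.cast_zero]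
      positivity
  have hmain := hFM P (fun i : P => (i : ℕ)) y z (z ^ (q * m)) (z ^ (4 * (E / 16))) K
    (NI u v Q b) (2 * XI u v Q) (om y z) C (TB m q (E / 16) z P)
    (fun r => ∏ i : P, (if r i = 0 then 1 else - ab m q z (r i))) al
    hz2 (by positivity) ho hC
    (fun r hr i => ((mem_TB hr).1 i).imp_right fun h => LA_sub hz1 le_rfl h)
    (fun r hr => card_TB hm hz2 hr)
    (fun r hr => by
      calc (∏ i, max 1 (r i)) ^ 4 ≤ (z ^ (E / 16)) ^ 4 := Nat.pow_le_pow_left (prod_TB hz2 hr) 4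
        _ = z ^ (4 * (E / 16)) := by rw [← pow_mul]; ring_nf)
    hal0
    (fun r hr => by
      rw [Finset.abs_prod]
      refine Finset.prod_le_prod (fun i _ => abs_nonneg _) fun i _ => ?_
      by_cases hi : r i = 0
      · simp [hi]
      · rw [if_neg hi, if_neg hi, abs_neg, abs_of_nonneg (ab_nonneg _ _ _ _)]
        simp only [hal]
        rw [if_pos (((mem_TB hr).1 i).resolve_left hi)])
    (fun d hd => by
      refine le_trans (le_of_eq ?_) (hCB' d hd).1
      congr 1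
      simp only [hal]
      rw [← Finset.sum_filter, Finset.filter_filter]
      refine Finset.sum_congr ?_ fun _ _ => rfl
      ext r
      rw [Finset.mem_filter, Finset.mem_filter]
      constructor
      · rintro ⟨_, h2, h3⟩
        exact ⟨h3, h2⟩
      · rintro ⟨h1, h2⟩
        exact ⟨LA_sub hz1 le_rfl h1, h2, h1⟩)
    hcount
  have hWB : ∀ n, WB m q (E / 16) z y P n ^ 4 =
      (∑ r ∈ TB m q (E / 16) z P, (∏ i : P, (if r i = 0 then 1 else - ab m q z (r i))) *
        ∏ i : P, vv y z (r i) (n + (i : ℕ))) ^ 4 := fun n => by rw [WB_eq]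
  simp only [hWB]
  refine hmain.trans ?_
  -- the mass
  have hXX : (z ^ (q * m)) ^ 4 ≤ z ^ E := by
    rw [← pow_mul]
    exact Nat.pow_le_pow_right hz1 (by omega)
  have hmass' : ∑ e ∈ SS z ((z ^ (q * m)) ^ 4), (16 : ℝ) ^ e.primeFactors.card / e
      ≤ (C' * E) ^ 16 := by
    have h1 := hmass z E 16 hz2 (by omega)
    push_cast at h1
    refine le_trans ?_ h1
    refine Finset.sum_le_sum_of_subset_of_nonneg ?_ fun _ _ _ => by positivity
    intro e he
    rw [mem_SS] at he ⊢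
    exact ⟨⟨he.1.1, he.1.2.trans_le hXX⟩, he.2⟩
  have hmass0 : 0 ≤ ∑ e ∈ SS z ((z ^ (q * m)) ^ 4), (16 : ℝ) ^ e.primeFactors.card / e :=
    Finset.sum_nonneg fun _ _ => by positivity
  have hbase : 1 + (Fintype.card P : ℝ) * (om y z * (16 * C ^ 4 *
      ∑ e ∈ SS z ((z ^ (q * m)) ^ 4), (16 : ℝ) ^ e.primeFactors.card / e))
      ≤ Real.exp (E / 16) := by
    refine le_trans ?_ (hEe E hE4)
    have h1 : (Fintype.card P : ℝ) * om y z ≤ (E : ℝ) ^ 2 := by
      rw [Fintype.card_coe]; exact hPo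
    have h2 : (Fintype.card P : ℝ) * (om y z * (16 * C ^ 4 *
        ∑ e ∈ SS z ((z ^ (q * m)) ^ 4), (16 : ℝ) ^ e.primeFactors.card / e))
        ≤ (E : ℝ) ^ 2 * (16 * C ^ 4 * (C' * E) ^ 16) := by
      rw [← mul_assoc]
      refine mul_le_mul h1 ?_ (by positivity) (by positivity)
      exact mul_le_mul_of_nonneg_left hmass' (by positivity)
    have h3 : (E : ℝ) ^ 2 * (16 * C ^ 4 * (C' * E) ^ 16)
        = 16 * C ^ 4 * C' ^ 16 * (E : ℝ) ^ 18 := by ring
    linarith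
  have hbase0 : 0 ≤ 1 + (Fintype.card P : ℝ) * (om y z * (16 * C ^ 4 *
      ∑ e ∈ SS z ((z ^ (q * m)) ^ 4), (16 : ℝ) ^ e.primeFactors.card / e)) := by positivity
  have hpow : (1 + (Fintype.card P : ℝ) * (om y z * (16 * C ^ 4 *
      ∑ e ∈ SS z ((z ^ (q * m)) ^ 4), (16 : ℝ) ^ e.primeFactors.card / e))) ^ (4 * K)
      ≤ Real.exp ((E : ℝ) ^ 2 / 4) := by
    refine (pow_le_pow_left₀ hbase0 hbase _).trans ?_
    rw [← Real.exp_nat_mul]
    apply Real.exp_le_exp.2
    have hKr : (K : ℝ) ≤ E := by exact_mod_cast hKE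
    have hE0 : (0 : ℝ) ≤ E := Nat.cast_nonneg _
    push_cast
    nlinarith
  have h2le : (2 : ℝ) ≤ Real.exp ((E : ℝ) ^ 2 / 4) := by
    have hE4' : (4096 : ℝ) ≤ E := by exact_mod_cast hE5
    have := Real.add_one_le_exp ((E : ℝ) ^ 2 / 4)
    nlinarith
  calc 2 * XI u v Q * (1 + (Fintype.card P : ℝ) * (om y z * (16 * C ^ 4 *
      ∑ e ∈ SS z ((z ^ (q * m)) ^ 4), (16 : ℝ) ^ e.primeFactors.card / e))) ^ (4 * K)
      ≤ (Real.exp ((E : ℝ) ^ 2 / 4) * XI u v Q) * Real.exp ((E : ℝ) ^ 2 / 4) :=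
        mul_le_mul (mul_le_mul_of_nonneg_right h2le hX0) hpow (by positivity) (by positivity)
    _ = Real.exp ((E : ℝ) ^ 2 / 2) * XI u v Q := by
        have : Real.exp ((E : ℝ) ^ 2 / 2) = Real.exp ((E : ℝ) ^ 2 / 4) * Real.exp ((E : ℝ) ^ 2 / 4) := by
          rw [← Real.exp_add]; congr 1; ring
        rw [this]; ring

end Pool.Agent.Helper5.TA
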